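import Pool.Agent.Lib.MP_8c9cbf_an.S.SD

/-! Row S5: the Banach space (model: `MP_0d518c_an/SpB`).  `X` is the closure in `ℓ_∞(T)` of the
range of `Φ`.  `ev (τ, 0) y = y τ`, `ev (τ, k) = 0` for `k > 0`, `S = 0`, `Q n` = restriction of
`Qi n` (it maps the range of `Φ` into itself, so also the closure); every identity is proved for
`Φ x` and extended by continuity.  `c0`: for `Φ x` this is `finite_coord`, then approximate within
`ε / 2`.  `ext`: the truncations `u_m = u` where `1/(m+1) ≤ |u|` and `rank < n`, `0` elsewhere, are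
finitely supported; `x_m = Φ` of the vector of `E_ext` is Cauchy by `abs_pr_E_le`
(`‖x_m - x_k‖ ≤ 2 ‖u_m - u_k‖_∞`). -/

namespace Pool.Agent.MP8c9cbf

open Finset Filter Topology

namespace SE

/-- evaluation functional on `ℓ_∞` -/
noncomputable def evi {T : Type} (τ : T) : LiT T →L[ℝ] ℝ :=
  LinearMap.mkContinuous
    { toFun := fun y => y τ
      map_add' := fun x y => by simp
      map_smul' := fun c x => by simp } 1
    (fun y => by
      have h := lp.norm_apply_le_norm (by simp) y τ
      rw [one_mul]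
      exact h)

theorem evi_apply {T : Type} (τ : T) (y : LiT T) : evi τ y = y τ := rfl

/-- evaluation at the pairs -/
noncomputable def evp {T : Type} (q : T × ℕ) : LiT T →L[ℝ] ℝ := if q.2 = 0 then evi q.1 else 0

theorem evp_zero {T : Type} (τ : T) (y : LiT T) : evp (τ, 0) y = y τ := by
  unfold evp
  rw [if_pos rfl]
  rfl

theorem evp_pos {T : Type} (q : T × ℕ) (y : LiT T) (h : 0 < q.2) : evp q y = 0 := by
  unfold evp
  rw [if_neg (by omega)]
  rfl

variable {T : Type} (D : TreeData T)

/-- the space, as a submodule of `ℓ_∞` -/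
noncomputable def YY (Φ : (T →₀ ℝ) →ₗ[ℝ] LiT T) : Submodule ℝ (LiT T) :=
  (LinearMap.range Φ).topologicalClosure

theorem mem_YY (Φ : (T →₀ ℝ) →ₗ[ℝ] LiT T) (x : T →₀ ℝ) : Φ x ∈ YY Φ :=
  Submodule.le_topologicalClosure _ (LinearMap.mem_range_self Φ x)

theorem isClosed_YY (Φ : (T →₀ ℝ) →ₗ[ℝ] LiT T) : IsClosed (YY Φ : Set (LiT T)) :=
  Submodule.isClosed_topologicalClosure _

theorem YY_induction {Φ : (T →₀ ℝ) →ₗ[ℝ] LiT T} {P : LiT T → Prop}
    (hc : IsClosed {y | P y}) (h : ∀ x, P (Φ x)) {y : LiT T} (hy : y ∈ YY Φ) : P y := by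
  have h1 : (YY Φ : Set (LiT T)) ⊆ {y | P y} := by
    have : (YY Φ : Set (LiT T)) = closure (LinearMap.range Φ : Set (LiT T)) :=
      Submodule.topologicalClosure_coe _
    rw [this]
    apply closure_minimal _ hc
    rintro _ ⟨x, rfl⟩
    exact h x
  exact h1 hy

theorem YY_approx {Φ : (T →₀ ℝ) →ₗ[ℝ] LiT T} {y : LiT T} (hy : y ∈ YY Φ) {ε : ℝ}
    (hε : 0 < ε) : ∃ x, ‖y - Φ x‖ < ε := by
  have h1 : y ∈ closure (LinearMap.range Φ : Set (LiT T)) := by
    have := Submodule.topologicalClosure_coe (LinearMap.range Φ)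
    rw [← this]; exact hy
  obtain ⟨z, ⟨x, rfl⟩, hz⟩ := Metric.mem_closure_iff.1 h1 ε hε
  exact ⟨x, by rwa [dist_eq_norm] at hz⟩

/-- pairing with `Σ_q b_q e*_q` -/
theorem pr_Bst (b : T × ℕ →₀ ℝ) {Φ : (T →₀ ℝ) →ₗ[ℝ] LiT T}
    (hΦ : ∀ x τ, Φ x τ = TreeData.pr (D.E τ) x) (x : T →₀ ℝ) :
    TreeData.pr (TreeData.Bst D.E b) x = ∑ q ∈ b.support, b q * evp q (Φ x) := by
  unfold TreeData.Bst
  rw [TreeData.pr_sum_left]
  apply Finset.sum_congr rfl
  rintro ⟨τ, k⟩ _
  rw [TreeData.pr_smul_left]
  congr 1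
  rcases Nat.eq_zero_or_pos k with hk | hk
  · subst hk
    rw [if_pos rfl, evp_zero, hΦ]
  · rw [if_neg (by simpa using hk.ne'), TreeData.pr_zero_left, evp_pos _ _ hk]

/-- the recursion for the coordinates -/
theorem node_aux {Φ : (T →₀ ℝ) →ₗ[ℝ] LiT T} (hΦ : ∀ x τ, Φ x τ = TreeData.pr (D.E τ) x)
    (τ : T) (n : ℕ) (x : T →₀ ℝ) (hx : D.tr n x = x) (hn : n ≤ D.rank τ) :
    (Φ x) τ = ((D.prv τ).elim 0 fun ξ => (Φ x) ξ) +
      ((D.wt τ).elim 0 fun i => (mm i : ℝ)⁻¹ * ∑ q ∈ (D.bb τ).support, D.bb τ q *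
        evp q (Φ x - Φ (D.tr (D.lev τ) x))) := by
  have h0 : x τ = 0 := by
    rw [← hx, TreeData.tr_apply, if_neg (by omega)]
  rw [hΦ x τ, D.E_eq τ, TreeData.pr_add_left, TreeData.pr_add_left, TreeData.pr_single_left, h0]
  have e1 : TreeData.pr ((D.prv τ).elim 0 fun ξ => D.E ξ) x =
      ((D.prv τ).elim 0 fun ξ => (Φ x) ξ) := by
    cases D.prv τ with
    | none => exact TreeData.pr_zero_left x
    | some ξ => exact (hΦ x ξ).symm
  have e2 : TreeData.pr ((D.wt τ).elim 0 fun i => (mm i : ℝ)⁻¹ •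
      (TreeData.Bst D.E (D.bb τ) - D.tr (D.lev τ) (TreeData.Bst D.E (D.bb τ)))) x =
      ((D.wt τ).elim 0 fun i => (mm i : ℝ)⁻¹ * ∑ q ∈ (D.bb τ).support, D.bb τ q *
        evp q (Φ x - Φ (D.tr (D.lev τ) x))) := by
    cases D.wt τ with
    | none => exact TreeData.pr_zero_left x
    | some i =>
      simp only [Option.elim_some]
      rw [TreeData.pr_smul_left, TreeData.pr_sub_left, TreeData.pr_tr, pr_Bst D _ hΦ,
        pr_Bst D _ hΦ, ← Finset.sum_sub_distrib]
      congr 1
      apply Finset.sum_congr rfl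
      intro q _
      rw [map_sub]
      ring
  rw [e1, e2]
  ring

/-- vectors with prescribed coordinates of rank `< n` -/
theorem ext_aux {Φ : (T →₀ ℝ) →ₗ[ℝ] LiT T} (hΦ : ∀ x τ, Φ x τ = TreeData.pr (D.E τ) x)
    (n : ℕ) (Qi : LiT T →L[ℝ] LiT T) (hQ : ∀ x, Qi (Φ x) = Φ (D.tr n x))
    (u : T → ℝ) (c : ℝ) (hc : 0 ≤ c) (hu : ∀ τ, |u τ| ≤ c)
    (hf : ∀ ε : ℝ, 0 < ε → {τ : T | D.rank τ < n ∧ ε ≤ |u τ|}.Finite) :
    ∃ y ∈ YY Φ, Qi y = y ∧ (∀ τ, D.rank τ < n → y τ = u τ) ∧ ‖y‖ ≤ 2 * c := by
  classical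
  have hpos : ∀ m : ℕ, (0 : ℝ) < 1 / ((m : ℝ) + 1) := fun m => by positivity
  have hfin : ∀ m : ℕ, {τ : T | D.rank τ < n ∧
      (if D.rank τ < n ∧ 1 / ((m : ℝ) + 1) ≤ |u τ| then u τ else 0) ≠ 0}.Finite := by
    intro m
    refine (hf _ (hpos m)).subset ?_
    rintro τ ⟨h1, h2⟩
    by_cases h : D.rank τ < n ∧ 1 / ((m : ℝ) + 1) ≤ |u τ|
    · exact h
    · rw [if_neg h] at h2
      exact absurd rfl h2
  choose x hx1 hx2 using fun m => D.E_ext n _ (hfin m)
  have hcau : CauchySeq (fun m => Φ (x m)) := by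
    refine cauchySeq_of_le_tendsto_0 (fun N : ℕ => 2 * (1 / ((N : ℝ) + 1))) ?_ ?_
    · intro m k N hm hk
      have hmN : 1 / ((m : ℝ) + 1) ≤ 1 / ((N : ℝ) + 1) := by
        apply one_div_le_one_div_of_le (by positivity)
        have : (N : ℝ) ≤ m := by exact_mod_cast hm
        linarith
      have hkN : 1 / ((k : ℝ) + 1) ≤ 1 / ((N : ℝ) + 1) := by
        apply one_div_le_one_div_of_le (by positivity)
        have : (N : ℝ) ≤ k := by exact_mod_cast hk
        linarith
      rw [dist_eq_norm, ← map_sub]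
      apply lp.norm_le_of_forall_le (by positivity)
      intro τ
      rw [hΦ, Real.norm_eq_abs]
      apply D.abs_pr_E_le (n := n)
      · rw [map_sub, hx1, hx1]
      · positivity
      · intro r hr
        have e : TreeData.pr (D.E r) (x m - x k) =
            TreeData.pr (D.E r) (x m) - TreeData.pr (D.E r) (x k) := by
          rw [← hΦ, ← hΦ, ← hΦ, map_sub]
          rfl
        rw [e, hx2 m r hr, hx2 k r hr]
        by_cases h1 : 1 / ((m : ℝ) + 1) ≤ |u r|
        · by_cases h2 : 1 / ((k : ℝ) + 1) ≤ |u r|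
          · rw [if_pos ⟨hr, h1⟩, if_pos ⟨hr, h2⟩, sub_self, abs_zero]
            exact (hpos N).le
          · rw [if_pos ⟨hr, h1⟩, if_neg (fun h => h2 h.2), sub_zero]
            exact (not_le.mp h2).le.trans hkN
        · by_cases h2 : 1 / ((k : ℝ) + 1) ≤ |u r|
          · rw [if_neg (fun h => h1 h.2), if_pos ⟨hr, h2⟩, zero_sub, abs_neg]
            exact (not_le.mp h1).le.trans hmN
          · rw [if_neg (fun h => h1 h.2), if_neg (fun h => h2 h.2), sub_zero, abs_zero]
            exact (hpos N).le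
    · have := (tendsto_one_div_add_atTop_nhds_zero_nat (𝕜 := ℝ)).const_mul 2
      rwa [mul_zero] at this
  obtain ⟨y, hy⟩ := cauchySeq_tendsto_of_complete hcau
  refine ⟨y, ?_, ?_, ?_, ?_⟩
  · exact (isClosed_YY Φ).mem_of_tendsto hy (Eventually.of_forall fun m => mem_YY Φ _)
  · refine tendsto_nhds_unique ((Qi.continuous.tendsto y).comp hy) ?_
    have : (fun m => Φ (x m)) = (⇑Qi ∘ fun m => Φ (x m)) := by
      funext m
      show Φ (x m) = Qi (Φ (x m))
      rw [hQ, hx1]
    rw [← this]
    exact hy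
  · intro τ hτ
    have h1 : Tendsto (fun m => (Φ (x m)) τ) atTop (𝓝 (y τ)) :=
      ((evi τ).continuous.tendsto y).comp hy
    refine tendsto_nhds_unique h1 ?_
    apply tendsto_const_nhds.congr'
    by_cases h0 : u τ = 0
    · refine Eventually.of_forall fun m => ?_
      show u τ = (Φ (x m)) τ
      rw [hΦ, hx2 m τ hτ, h0]
      simp
    · obtain ⟨N, hN⟩ := exists_nat_one_div_lt (abs_pos.mpr h0)
      filter_upwards [eventually_ge_atTop N] with m hm
      have hmN : 1 / ((m : ℝ) + 1) ≤ 1 / ((N : ℝ) + 1) := by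
        apply one_div_le_one_div_of_le (by positivity)
        have : (N : ℝ) ≤ m := by exact_mod_cast hm
        linarith
      rw [hΦ, hx2 m τ hτ, if_pos ⟨hτ, hmN.trans hN.le⟩]
  · refine le_of_tendsto (hy.norm) (Eventually.of_forall fun m => ?_)
    apply lp.norm_le_of_forall_le (by positivity)
    intro τ
    rw [hΦ, Real.norm_eq_abs]
    apply D.abs_pr_E_le (hx1 m) hc
    intro r hr
    rw [hx2 m r hr]
    split_ifs
    · exact hu r
    · rw [abs_zero]; exact hc

end SE

open SE in
theorem exists_AHData {T : Type} (D : TreeData T) :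
    ∃ (X : Type) (_ : NormedAddCommGroup X) (_ : NormedSpace ℝ X) (_ : CompleteSpace X),
      Nonempty (AHData T X) := by
  classical
  obtain ⟨Φ, hΦ⟩ := D.exists_Phi
  choose Qi hQn hQΦ hQ0 using fun n => D.exists_Qinf hΦ n
  have hQY : ∀ n y, y ∈ YY Φ → Qi n y ∈ YY Φ := by
    intro n y hy
    refine YY_induction (P := fun y => Qi n y ∈ YY Φ) ?_ ?_ hy
    · exact (isClosed_YY Φ).preimage (Qi n).continuous
    · intro x
      rw [hQΦ]
      exact mem_YY Φ _
  let X := YY Φ
  have hcomp : CompleteSpace X := (isClosed_YY Φ).completeSpace_coe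
  let evY : T × ℕ → X →L[ℝ] ℝ := fun q => (evp q).comp (YY Φ).subtypeL
  let QY : ℕ → X →L[ℝ] X := fun n =>
    ((Qi n).comp (YY Φ).subtypeL).codRestrict (YY Φ) (fun x => hQY n _ x.2)
  have hevY : ∀ q (x : X), evY q x = evp q (x : LiT T) := fun q x => rfl
  have hQYc : ∀ n (x : X), ((QY n x : X) : LiT T) = Qi n (x : LiT T) := fun n x => rfl
  have hQQ : ∀ n k (y : LiT T), y ∈ YY Φ → Qi n (Qi k y) = Qi (min n k) y := by
    intro n k y hy
    refine YY_induction (P := fun y => Qi n (Qi k y) = Qi (min n k) y) ?_ ?_ hy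
    · exact isClosed_eq ((Qi n).continuous.comp (Qi k).continuous) (Qi (min n k)).continuous
    · intro x
      rw [hQΦ, hQΦ, hQΦ, TreeData.tr_tr]
  have hevQ : ∀ n (τ : T) (y : LiT T), y ∈ YY Φ → D.rank τ < n → (Qi n y) τ = y τ := by
    intro n τ y hy hτ
    refine YY_induction (P := fun y => (Qi n y) τ = y τ) ?_ ?_ hy
    · exact isClosed_eq ((evi τ).continuous.comp (Qi n).continuous) (evi τ).continuous
    · intro x
      rw [hQΦ, hΦ, hΦ, ← TreeData.pr_tr, D.tr_E_of_lt hτ]
  have hnode : ∀ (τ : T) (n : ℕ) (y : LiT T), y ∈ YY Φ → n ≤ D.rank τ →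
      (Qi n y) τ = ((D.prv τ).elim 0 fun ξ => (Qi n y) ξ) +
        ((D.wt τ).elim 0 fun i => (mm i : ℝ)⁻¹ * ∑ q ∈ (D.bb τ).support, D.bb τ q *
          evp q (Qi n y - Qi (D.lev τ) (Qi n y))) := by
    intro τ n y hy hn
    refine YY_induction (P := fun y => (Qi n y) τ = ((D.prv τ).elim 0 fun ξ => (Qi n y) ξ) +
        ((D.wt τ).elim 0 fun i => (mm i : ℝ)⁻¹ * ∑ q ∈ (D.bb τ).support, D.bb τ q *
          evp q (Qi n y - Qi (D.lev τ) (Qi n y)))) ?_ ?_ hy
    · refine isClosed_eq ((evi τ).continuous.comp (Qi n).continuous) (Continuous.add ?_ ?_)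
      · cases D.prv τ with
        | none => exact continuous_const
        | some ξ => exact (evi ξ).continuous.comp (Qi n).continuous
      · cases D.wt τ with
        | none => exact continuous_const
        | some i =>
          refine continuous_const.mul (continuous_finsetSum _ fun q _ =>
            continuous_const.mul ((evp q).continuous.comp ?_))
          exact (Qi n).continuous.sub ((Qi (D.lev τ)).continuous.comp (Qi n).continuous)
    · intro x
      rw [hQΦ, hQΦ]
      refine node_aux D hΦ τ n (D.tr n x) ?_ hn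
      rw [TreeData.tr_tr, min_self]
  refine ⟨X, inferInstance, inferInstance, hcomp, ⟨?_⟩⟩
  exact
    { D with
      ev := evY
      Q := QY
      S := 0
      ev_le := by
        intro q x
        rw [hevY]
        rcases Nat.eq_zero_or_pos q.2 with h | h
        · have e : q = (q.1, 0) := by rw [← h]
          rw [e, evp_zero]
          have := lp.norm_apply_le_norm (by simp) (x : LiT T) q.1
          simpa using this
        · rw [evp_pos _ _ h, abs_zero]
          exact norm_nonneg _
      norm_le := by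
        intro x c hc h
        change ‖(x : LiT T)‖ ≤ c
        refine lp.norm_le_of_forall_le hc (fun τ => ?_)
        have := h (τ, 0)
        rw [hevY, evp_zero] at this
        rw [Real.norm_eq_abs]
        exact this
      ev_zero := by
        intro q x hq
        rw [hevY]
        exact evp_pos _ _ hq
      Q_norm := by
        intro n x
        exact hQn n x
      Q_Q := by
        intro n k x
        apply Subtype.ext
        rw [hQYc, hQYc, hQYc]
        exact hQQ n k _ x.2
      Q_tendsto := by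
        intro x
        rw [Metric.tendsto_atTop]
        intro ε hε
        obtain ⟨x', hx'⟩ := YY_approx x.2 (show 0 < ε / 4 by positivity)
        obtain ⟨n0, hn0⟩ := D.exists_tr x'
        refine ⟨n0, fun n hn => ?_⟩
        rw [dist_eq_norm]
        change ‖Qi n (x : LiT T) - (x : LiT T)‖ < ε
        have e : Qi n (x : LiT T) - (x : LiT T) =
            Qi n ((x : LiT T) - Φ x') - ((x : LiT T) - Φ x') := by
          rw [map_sub, hQΦ, hn0 n hn]; abel
        rw [e]
        calc ‖Qi n ((x : LiT T) - Φ x') - ((x : LiT T) - Φ x')‖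
            ≤ ‖Qi n ((x : LiT T) - Φ x')‖ + ‖((x : LiT T) - Φ x')‖ := norm_sub_le _ _
          _ ≤ 2 * ‖((x : LiT T) - Φ x')‖ + ‖((x : LiT T) - Φ x')‖ := by gcongr; exact hQn n _
          _ < ε := by linarith
      ev_Q := by
        intro n q x hq
        rw [hevY, hevY, hQYc]
        rcases Nat.eq_zero_or_pos q.2 with h | h
        · have e : q = (q.1, 0) := by rw [← h]
          rw [e, evp_zero, evp_zero]
          exact hevQ n q.1 _ x.2 hq
        · rw [evp_pos _ _ h, evp_pos _ _ h]
      Q_eq_zero := by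
        intro n x h
        apply Subtype.ext
        rw [hQYc]
        refine hQ0 n x (fun τ hτ => ?_)
        have := h (τ, 0) hτ
        rw [hevY, evp_zero] at this
        exact this
      c0 := by
        intro n x ε hε
        obtain ⟨x', hx'⟩ := YY_approx x.2 (show 0 < ε / 2 by positivity)
        refine (D.finite_coord n x').subset ?_
        rintro τ ⟨h1, h2⟩
        refine ⟨h1, fun h0 => ?_⟩
        rw [hevY, evp_zero] at h2
        have h3 := lp.norm_apply_le_norm (by simp) ((x : LiT T) - Φ x') τ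
        have h4 : ((x : LiT T) - Φ x') τ = (x : LiT T) τ := by
          show (x : LiT T) τ - (Φ x') τ = _
          rw [hΦ, h0, sub_zero]
        rw [h4, Real.norm_eq_abs] at h3
        linarith
      ext := by
        intro n u c hc hu hf
        obtain ⟨y, hy, h1, h2, h3⟩ := ext_aux D hΦ n (Qi n) (hQΦ n) u c hc hu hf
        refine ⟨⟨y, hy⟩, ?_, ?_, h3⟩
        · apply Subtype.ext
          rw [hQYc]
          exact h1
        · intro τ hτ
          rw [hevY, evp_zero]
          exact h2 τ hτ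
      node := by
        intro τ i n x hw hn
        have h3 := hnode τ n (x : LiT T) x.2 hn
        have e1 : evY (τ, 0) (QY n x) = (Qi n (x : LiT T)) τ := by
          rw [hevY, hQYc, evp_zero]
        have e2 : ((D.prv τ).elim 0 fun ξ => evY (ξ, 0) (QY n x)) =
            ((D.prv τ).elim 0 fun ξ => (Qi n (x : LiT T)) ξ) := by
          cases D.prv τ with
          | none => rfl
          | some ξ =>
            show evY (ξ, 0) (QY n x) = (Qi n (x : LiT T)) ξ
            rw [hevY, hQYc, evp_zero]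
        have e3 : ∀ q, evY q (QY n x - QY (D.lev τ) (QY n x)) =
            evp q (Qi n (x : LiT T) - Qi (D.lev τ) (Qi n (x : LiT T))) := fun q => rfl
        rw [hw] at h3
        simp only [Option.elim_some] at h3
        rw [e1, h3, e2]
        rfl
      base := by
        intro τ n x hw hn
        have h3 := hnode τ n (x : LiT T) x.2 hn
        rw [hw, D.base_prv τ hw] at h3
        simp only [Option.elim_none, add_zero] at h3
        rw [hevY, hQYc, evp_zero]
        exact h3
      ev_S := by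
        intro τ k x
        rw [hevY, hevY, evp_pos (τ, k + 1) _ (Nat.succ_pos k), mul_zero]
        show evp (τ, k) ((0 : X) : LiT T) = 0
        rw [Submodule.coe_zero, map_zero]
      Q_S := by
        intro n x
        exact map_zero (QY n) }

end Pool.Agent.MP8c9cbf
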