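import Pool.Agent.Lib.MP_8c9cbf_an.S.SDefs
import Pool.Agent.Lib.MP_8c9cbf_an.Par

/-! Row S1: truncation, pairing, recursion for `E`, supports (model: `MP_0d518c_an/SA1`, `SA2`,
`SA3`). -/

namespace Pool.Agent.MP8c9cbf

open Finset Filter Topology

variable {T : Type} (D : TreeData T)

namespace TreeData

theorem SA_tr_single (n : ℕ) (τ : T) (c : ℝ) :
    D.tr n (Finsupp.single τ c) = if D.rank τ < n then Finsupp.single τ c else 0 := by
  unfold tr
  rw [Finsupp.linearCombination_single]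
  split_ifs
  · rw [Finsupp.smul_single, smul_eq_mul, mul_one]
  · rw [smul_zero]

theorem tr_apply (n : ℕ) (f : T →₀ ℝ) (τ : T) :
    D.tr n f τ = if D.rank τ < n then f τ else 0 := by
  induction f using Finsupp.induction_linear with
  | zero => simp
  | add f g hf hg =>
    rw [map_add, Finsupp.add_apply, hf, hg, Finsupp.add_apply]
    split_ifs
    · rfl
    · rw [add_zero]
  | single r c =>
    rw [SA_tr_single]
    by_cases hr : r = τ
    · subst hr
      split_ifs <;> simp
    · have h1 : (Finsupp.single r c : T →₀ ℝ) τ = 0 := Finsupp.single_eq_of_ne' hr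
      rw [h1]
      split_ifs <;> simp [h1]

theorem tr_tr (n k : ℕ) (f : T →₀ ℝ) : D.tr n (D.tr k f) = D.tr (min n k) f := by
  ext q
  rw [tr_apply, tr_apply, tr_apply]
  by_cases h1 : D.rank q < n <;> by_cases h2 : D.rank q < k <;> simp [h1, h2]

theorem tr_zero (f : T →₀ ℝ) : D.tr 0 f = 0 := by
  ext q
  rw [tr_apply]
  simp

/-- every vector has finite rank -/
theorem exists_tr (x : T →₀ ℝ) : ∃ n, ∀ m ≥ n, D.tr m x = x := by
  refine ⟨(x.support.sup fun q => D.rank q) + 1, fun m hm => ?_⟩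
  ext q
  rw [tr_apply]
  by_cases hq : q ∈ x.support
  · have h1 : D.rank q ≤ x.support.sup fun q => D.rank q :=
      Finset.le_sup (f := fun q : T => D.rank q) hq
    rw [if_pos (by omega)]
  · rw [Finsupp.notMem_support_iff.1 hq, ite_self]

theorem SA_pr_eq (f x : T →₀ ℝ) :
    pr f x = Finsupp.linearCombination ℝ (fun q => x q) f := rfl

theorem pr_add_left (f g x : T →₀ ℝ) : pr (f + g) x = pr f x + pr g x := by
  simp only [SA_pr_eq, map_add]

theorem pr_sub_left (f g x : T →₀ ℝ) : pr (f - g) x = pr f x - pr g x := by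
  simp only [SA_pr_eq, map_sub]

theorem pr_smul_left (c : ℝ) (f x : T →₀ ℝ) : pr (c • f) x = c * pr f x := by
  simp only [SA_pr_eq, map_smul, smul_eq_mul]

theorem pr_sum_left {ι : Type} (s : Finset ι) (f : ι → T →₀ ℝ) (x : T →₀ ℝ) :
    pr (∑ i ∈ s, f i) x = ∑ i ∈ s, pr (f i) x := by
  simp only [SA_pr_eq, map_sum]

theorem pr_zero_left (x : T →₀ ℝ) : pr 0 x = 0 := by
  simp only [SA_pr_eq, map_zero]

theorem pr_single_left (τ : T) (c : ℝ) (x : T →₀ ℝ) : pr (Finsupp.single τ c) x = c * x τ := by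
  rw [SA_pr_eq, Finsupp.linearCombination_single, smul_eq_mul]

theorem pr_single_right (f : T →₀ ℝ) (τ : T) (c : ℝ) : pr f (Finsupp.single τ c) = f τ * c := by
  induction f using Finsupp.induction_linear with
  | zero => rw [pr_zero_left, Finsupp.zero_apply, zero_mul]
  | add f g hf hg => rw [pr_add_left, hf, hg, Finsupp.add_apply, add_mul]
  | single r d =>
    rw [pr_single_left]
    by_cases hr : r = τ
    · subst hr
      rw [Finsupp.single_eq_same, Finsupp.single_eq_same]
    · rw [Finsupp.single_eq_of_ne hr, Finsupp.single_eq_of_ne' hr, mul_zero, zero_mul]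

theorem pr_add_right (f x y : T →₀ ℝ) : pr f (x + y) = pr f x + pr f y := by
  simp only [pr, Finsupp.add_apply, mul_add, Finset.sum_add_distrib]

theorem pr_smul_right (c : ℝ) (f x : T →₀ ℝ) : pr f (c • x) = c * pr f x := by
  simp only [pr, Finsupp.smul_apply, smul_eq_mul, Finset.mul_sum]
  exact Finset.sum_congr rfl fun q _ => by ring

theorem SA_pr_zero_right (f : T →₀ ℝ) : pr f 0 = 0 := by
  simp [pr]

theorem pr_sum_right {ι : Type} (s : Finset ι) (f : T →₀ ℝ) (x : ι → T →₀ ℝ) :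
    pr f (∑ i ∈ s, x i) = ∑ i ∈ s, pr f (x i) := by
  classical
  induction s using Finset.induction_on with
  | empty => rw [Finset.sum_empty, Finset.sum_empty, SA_pr_zero_right]
  | insert a s ha ih => rw [Finset.sum_insert ha, Finset.sum_insert ha, pr_add_right, ih]

theorem pr_tr (n : ℕ) (f x : T →₀ ℝ) : pr (D.tr n f) x = pr f (D.tr n x) := by
  induction f using Finsupp.induction_linear with
  | zero => rw [map_zero, pr_zero_left, pr_zero_left]
  | add f g hf hg => rw [map_add, pr_add_left, hf, hg, pr_add_left]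
  | single r c =>
    rw [SA_tr_single, pr_single_left, tr_apply]
    split_ifs
    · rw [pr_single_left]
    · rw [pr_zero_left, mul_zero]

theorem SA_Bst_congr (F G : T → (T →₀ ℝ)) (τ : T)
    (h : ∀ ξ, D.rank ξ < D.rank τ → F ξ = G ξ) : Bst F (D.bb τ) = Bst G (D.bb τ) := by
  unfold Bst
  refine Finset.sum_congr rfl fun q hq => ?_
  rw [h q.1 (D.bb_rank τ q hq)]

theorem SA_Estep_congr (F G : T → (T →₀ ℝ)) (τ : T)
    (h : ∀ ξ, D.rank ξ < D.rank τ → F ξ = G ξ) : D.Estep F τ = D.Estep G τ := by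
  have h1 : (D.prv τ).elim 0 F = (D.prv τ).elim 0 G := by
    cases hp : D.prv τ with
    | none => rfl
    | some ξ => exact h ξ (D.prv_rank τ ξ hp)
  unfold Estep
  rw [h1, D.SA_Bst_congr F G τ h]

theorem SA_Eup_eq (m : ℕ) : ∀ (k : ℕ) (τ : T), D.rank τ < m → D.rank τ < k →
    D.Eup m τ = D.Eup k τ := by
  induction m with
  | zero => intro k τ h; omega
  | succ m ih =>
    intro k τ h1 h2
    cases k with
    | zero => omega
    | succ k =>
      show D.Estep (D.Eup m) τ = D.Estep (D.Eup k) τ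
      apply SA_Estep_congr
      intro ξ hξ
      exact ih k ξ (by omega) (by omega)

/-- independence of the fuel -/
theorem Eup_eq (τ : T) {m : ℕ} (h : D.rank τ < m) : D.Eup m τ = D.E τ :=
  D.SA_Eup_eq m (D.rank τ + 1) τ h (Nat.lt_succ_self _)

/-- recursion for `E` -/
theorem E_eq (τ : T) : D.E τ = Finsupp.single τ 1 + ((D.prv τ).elim 0 fun ξ => D.E ξ) +
    ((D.wt τ).elim 0 fun i => (mm i : ℝ)⁻¹ •
        (Bst D.E (D.bb τ) - D.tr (D.lev τ) (Bst D.E (D.bb τ)))) := by
  have h1 : D.E τ = D.Estep D.E τ := by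
    show D.Estep (D.Eup (D.rank τ)) τ = D.Estep D.E τ
    apply SA_Estep_congr
    intro ξ hξ
    exact D.Eup_eq ξ hξ
  conv_lhs => rw [h1]
  rfl

/-- a base node: `e* = d*` -/
theorem E_base (τ : T) (h : D.wt τ = none) : D.E τ = Finsupp.single τ 1 := by
  rw [E_eq, D.base_prv τ h, h]
  simp only [Option.elim_none, add_zero]

/-- functionals with ranks `< n` -/
def SA_Z (n : ℕ) : Submodule ℝ (T →₀ ℝ) where
  carrier := {f | ∀ r, f r ≠ 0 → D.rank r < n}
  add_mem' := by
    intro f g hf hg r hr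
    by_cases h1 : f r = 0
    · apply hg
      intro h2
      exact hr (by rw [Finsupp.add_apply, h1, h2, add_zero])
    · exact hf r h1
  zero_mem' := fun r hr => absurd rfl hr
  smul_mem' := by
    intro c f hf r hr
    apply hf
    intro h
    exact hr (by rw [Finsupp.smul_apply, h, smul_zero])

theorem SA_Z_mono {m n : ℕ} (h : m ≤ n) {f : T →₀ ℝ} (hf : f ∈ D.SA_Z m) :
    f ∈ D.SA_Z n := fun r hr => (hf r hr).trans_le h

theorem SA_Z_tr {n : ℕ} (m : ℕ) {f : T →₀ ℝ} (hf : f ∈ D.SA_Z n) :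
    D.tr m f ∈ D.SA_Z n := by
  intro r hr
  rw [tr_apply] at hr
  apply hf
  intro h
  rw [h, ite_self] at hr
  exact hr rfl

theorem SA_single_mem (τ : T) (c : ℝ) :
    (Finsupp.single τ c : T →₀ ℝ) ∈ D.SA_Z (D.rank τ + 1) := by
  intro r hr
  have h : r = τ := by
    by_contra h
    exact hr (Finsupp.single_eq_of_ne h)
  subst h
  exact Nat.lt_succ_self _

theorem SA_E_mem (n : ℕ) : ∀ τ : T, D.rank τ = n →
    D.E τ - Finsupp.single τ 1 ∈ D.SA_Z (D.rank τ) := by
  induction n using Nat.strong_induction_on with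
  | _ n ih =>
    intro τ hτ
    have hE0 : ∀ ξ, D.rank ξ < D.rank τ → D.E ξ ∈ D.SA_Z (D.rank τ) := by
      intro ξ hξ
      have h1 := D.SA_Z_mono (Nat.le_succ _) (ih (D.rank ξ) (by omega) ξ rfl)
      have h2 := Submodule.add_mem _ h1 (D.SA_single_mem ξ 1)
      rw [sub_add_cancel] at h2
      exact D.SA_Z_mono hξ h2
    have hB : Bst D.E (D.bb τ) ∈ D.SA_Z (D.rank τ) := by
      unfold Bst
      refine Submodule.sum_mem _ fun q hq => Submodule.smul_mem _ _ ?_
      split_ifs
      · exact hE0 q.1 (D.bb_rank τ q hq)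
      · exact Submodule.zero_mem _
    rw [E_eq, add_assoc, add_sub_cancel_left]
    refine Submodule.add_mem _ ?_ ?_
    · cases hp : D.prv τ with
      | none => exact Submodule.zero_mem _
      | some ξ => exact hE0 ξ (D.prv_rank τ ξ hp)
    · cases hw : D.wt τ with
      | none => exact Submodule.zero_mem _
      | some i =>
        exact Submodule.smul_mem _ _ (Submodule.sub_mem _ hB (D.SA_Z_tr _ hB))

theorem SA_E_mem' (τ : T) : D.E τ ∈ D.SA_Z (D.rank τ + 1) := by
  have h2 := Submodule.add_mem _ (D.SA_Z_mono (Nat.le_succ _) (D.SA_E_mem _ τ rfl))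
    (D.SA_single_mem τ 1)
  rw [sub_add_cancel] at h2
  exact h2

/-- supports: `E τ` lives on ranks `< rank τ` and the point `τ` itself -/
theorem E_supp {τ r : T} (h : D.E τ r ≠ 0) : D.rank r < D.rank τ ∨ r = τ := by
  by_cases hr : r = τ
  · exact Or.inr hr
  · left
    apply D.SA_E_mem _ τ rfl r
    intro h2
    rw [Finsupp.sub_apply, Finsupp.single_eq_of_ne hr, sub_zero] at h2
    exact h h2

theorem E_self (τ : T) : D.E τ τ = 1 := by
  by_contra h2
  have h3 : (D.E τ - Finsupp.single τ 1 : T →₀ ℝ) τ ≠ 0 := by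
    rw [Finsupp.sub_apply, Finsupp.single_eq_same]
    intro h4
    exact h2 (sub_eq_zero.1 h4)
  exact absurd (D.SA_E_mem _ τ rfl τ h3) (lt_irrefl _)

theorem tr_E_of_lt {n : ℕ} {τ : T} (h : D.rank τ < n) : D.tr n (D.E τ) = D.E τ := by
  ext r
  rw [tr_apply]
  split_ifs with h1
  · rfl
  · by_contra h2
    have h3 := D.SA_E_mem' τ r (fun h4 => h2 h4.symm)
    omega

end TreeData

end Pool.Agent.MP8c9cbf
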