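import Pool.Agent.Lib.MP_8c9cbf_an.S.SA

/-! Row S2: the projections are bounded by 2 (model: `MP_0d518c_an/SA4`). -/

namespace Pool.Agent.MP8c9cbf

open Finset Filter Topology

variable {T : Type} (D : TreeData T)

namespace TreeData

/-- combinations of `E r`, `rank r < n`, with `ℓ_1`-norm of the coefficients `≤ c` -/
def SB_K (n : ℕ) (c : ℝ) (f : T →₀ ℝ) : Prop :=
  ∃ a : T →₀ ℝ, ∑ r ∈ a.support, |a r| ≤ c ∧
    (∀ r ∈ a.support, D.rank r < n) ∧
    f = ∑ r ∈ a.support, a r • D.E r

variable {D}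

theorem SB_mono {m n : ℕ} {c d : ℝ} (h : m ≤ n) (hcd : c ≤ d) {f : T →₀ ℝ}
    (hf : D.SB_K m c f) : D.SB_K n d f := by
  obtain ⟨a, h1, h2, h3⟩ := hf
  exact ⟨a, h1.trans hcd, fun r hr => (h2 r hr).trans_le h, h3⟩

theorem SB_zero (n : ℕ) {c : ℝ} (hc : 0 ≤ c) : D.SB_K n c 0 := by
  refine ⟨0, ?_, ?_, ?_⟩ <;> simp [hc]

theorem SB_add {n : ℕ} {c d : ℝ} {f g : T →₀ ℝ} (hf : D.SB_K n c f)
    (hg : D.SB_K n d g) : D.SB_K n (c + d) (f + g) := by
  classical
  obtain ⟨a, h1, h2, h3⟩ := hf
  obtain ⟨b, k1, k2, k3⟩ := hg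
  have e1 : ∀ (x : T →₀ ℝ) (s : Finset T), x.support ⊆ s →
      ∑ r ∈ x.support, |x r| = ∑ r ∈ s, |x r| := by
    intro x s hs
    refine Finset.sum_subset hs fun r _ hr => ?_
    rw [Finsupp.notMem_support_iff.1 hr, abs_zero]
  have e2 : ∀ (x : T →₀ ℝ) (s : Finset T), x.support ⊆ s →
      ∑ r ∈ x.support, x r • D.E r = ∑ r ∈ s, x r • D.E r := by
    intro x s hs
    refine Finset.sum_subset hs fun r _ hr => ?_
    rw [Finsupp.notMem_support_iff.1 hr, zero_smul]
  have ha : a.support ⊆ a.support ∪ b.support := Finset.subset_union_left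
  have hb : b.support ⊆ a.support ∪ b.support := Finset.subset_union_right
  have hab : (a + b).support ⊆ a.support ∪ b.support := Finsupp.support_add
  refine ⟨a + b, ?_, ?_, ?_⟩
  · rw [e1 _ _ hab]
    rw [e1 _ _ ha] at h1
    rw [e1 _ _ hb] at k1
    calc ∑ r ∈ a.support ∪ b.support, |(a + b) r|
        ≤ ∑ r ∈ a.support ∪ b.support, (|a r| + |b r|) :=
          Finset.sum_le_sum fun r _ => abs_add_le _ _
      _ = _ := Finset.sum_add_distrib
      _ ≤ c + d := add_le_add h1 k1
  · intro r hr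
    rcases Finset.mem_union.1 (hab hr) with h | h
    · exact h2 r h
    · exact k2 r h
  · rw [h3, k3, e2 _ _ ha, e2 _ _ hb, e2 _ _ hab, ← Finset.sum_add_distrib]
    refine Finset.sum_congr rfl fun r _ => ?_
    rw [Finsupp.add_apply, add_smul]

theorem SB_smul {n : ℕ} {c : ℝ} {f : T →₀ ℝ} (t : ℝ) (hf : D.SB_K n c f) :
    D.SB_K n (|t| * c) (t • f) := by
  by_cases ht : t = 0
  · subst ht
    rw [zero_smul, abs_zero, zero_mul]
    exact SB_zero n le_rfl
  · obtain ⟨a, h1, h2, h3⟩ := hf
    have hs : (t • a).support = a.support := Finsupp.support_smul_eq ht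
    refine ⟨t • a, ?_, ?_, ?_⟩
    · rw [hs]
      simp only [Finsupp.smul_apply, smul_eq_mul, abs_mul, ← Finset.mul_sum]
      exact mul_le_mul_of_nonneg_left h1 (abs_nonneg t)
    · rw [hs]; exact h2
    · rw [hs, h3, Finset.smul_sum]
      refine Finset.sum_congr rfl fun r _ => ?_
      rw [Finsupp.smul_apply, smul_eq_mul, mul_smul]

theorem SB_sum {n : ℕ} {ι : Type} (s : Finset ι) (t c : ι → ℝ) (f : ι → (T →₀ ℝ))
    (h : ∀ i ∈ s, D.SB_K n (c i) (f i)) :
    D.SB_K n (∑ i ∈ s, |t i| * c i) (∑ i ∈ s, t i • f i) := by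
  classical
  induction s using Finset.induction_on with
  | empty => simpa using SB_zero n le_rfl
  | insert a s ha ih =>
    rw [Finset.sum_insert ha, Finset.sum_insert ha]
    exact SB_add (SB_smul _ (h a (Finset.mem_insert_self a s)))
      (ih fun i hi => h i (Finset.mem_insert_of_mem hi))

theorem SB_E {n : ℕ} {r : T} (h : D.rank r < n) : D.SB_K n 1 (D.E r) := by
  refine ⟨Finsupp.single r 1, ?_, ?_, ?_⟩
  · rw [Finsupp.support_single r (one_ne_zero : (1 : ℝ) ≠ 0)]; simp
  · rw [Finsupp.support_single r (one_ne_zero : (1 : ℝ) ≠ 0)]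
    intro q hq
    rw [Finset.mem_singleton.1 hq]
    exact h
  · rw [Finsupp.support_single r (one_ne_zero : (1 : ℝ) ≠ 0)]; simp

variable (D)

theorem SB_main (N : ℕ) : ∀ (τ : T), D.rank τ = N → ∀ n, D.SB_K n 2 (D.tr n (D.E τ)) := by
  induction N using Nat.strong_induction_on with
  | _ N ih =>
    intro τ hτ n
    by_cases hn : D.rank τ < n
    · rw [D.tr_E_of_lt hn]
      exact SB_mono le_rfl one_le_two (SB_E hn)
    · have hB : ∀ l, D.SB_K l 2 (D.tr l (Bst D.E (D.bb τ))) := by
        intro l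
        unfold Bst
        rw [map_sum]
        simp only [map_smul]
        refine SB_mono le_rfl ?_ (SB_sum (D.bb τ).support (fun q => D.bb τ q) (fun _ => 2)
          (fun q => D.tr l (if q.2 = 0 then D.E q.1 else 0)) fun q hq => ?_)
        · rw [← Finset.sum_mul]
          have := D.bb_l1 τ
          linarith
        · show D.SB_K l 2 (D.tr l (if q.2 = 0 then D.E q.1 else 0))
          split_ifs
          · exact ih (D.rank q.1) (by rw [← hτ]; exact D.bb_rank τ q hq) q.1 rfl l
          · rw [map_zero]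
            exact SB_zero l zero_le_two
      have h0 : D.tr n (Finsupp.single τ (1 : ℝ)) = 0 := by
        rw [SA_tr_single, if_neg hn]
      rw [E_eq, map_add, map_add, h0, zero_add]
      cases hw : D.wt τ with
      | none =>
        rw [D.base_prv τ hw]
        simp only [Option.elim_none, map_zero, add_zero]
        exact SB_zero n zero_le_two
      | some i =>
        simp only [Option.elim_some]
        have hm0 : (0 : ℝ) < (mm i : ℝ)⁻¹ := mm_inv_pos i
        have hm1 : (mm i : ℝ)⁻¹ ≤ 1 / 4 := mm_inv_le_quarter i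
        cases hp : D.prv τ with
        | none =>
          have hlev : D.lev τ = 0 := by unfold lev; rw [hp]; rfl
          simp only [Option.elim_none, map_zero, zero_add]
          rw [hlev, tr_zero, sub_zero, map_smul]
          refine SB_mono le_rfl ?_ (SB_smul _ (hB n))
          rw [abs_of_pos hm0]
          linarith
        | some ξ =>
          have hlev : D.lev τ = D.rank ξ + 1 := by unfold lev; rw [hp]; rfl
          have hξ := D.prv_rank τ ξ hp
          simp only [Option.elim_some]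
          rw [map_smul, map_sub, tr_tr]
          by_cases hnl : n ≤ D.lev τ
          · rw [min_eq_left hnl, sub_self, smul_zero, add_zero]
            exact ih (D.rank ξ) (by omega) ξ rfl n
          · rw [min_eq_right (not_le.1 hnl).le]
            have h1 : D.tr n (D.E ξ) = D.E ξ := D.tr_E_of_lt (by omega)
            rw [h1]
            have h2 : D.SB_K n 1 (D.E ξ) := SB_E (by omega)
            have h3 : D.SB_K n (2 + |(-1 : ℝ)| * 2)
                (D.tr n (Bst D.E (D.bb τ)) - D.tr (D.lev τ) (Bst D.E (D.bb τ))) := by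
              rw [sub_eq_add_neg, ← neg_one_smul ℝ (D.tr (D.lev τ) _)]
              exact SB_add (hB n) (SB_smul _ (SB_mono (not_le.1 hnl).le le_rfl (hB _)))
            refine SB_mono le_rfl ?_ (SB_add h2 (SB_smul (mm i : ℝ)⁻¹ h3))
            rw [abs_of_pos hm0, abs_neg, abs_one]
            linarith

/-- `tr n (E τ)` is a combination of `E r`, `rank r < n`, with `ℓ_1`-norm of the coefficients
`≤ 2`.  Strong induction on `rank τ`, see `SA4_main` of the model. -/
theorem E_bound (τ : T) (n : ℕ) : ∃ a : T →₀ ℝ, ∑ r ∈ a.support, |a r| ≤ 2 ∧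
    (∀ r ∈ a.support, D.rank r < n) ∧ D.tr n (D.E τ) = ∑ r ∈ a.support, a r • D.E r :=
  D.SB_main _ τ rfl n

/-- vectors with `tr n x = x` are bounded by twice their coordinates of rank `< n` -/
theorem abs_pr_E_le {n : ℕ} {x : T →₀ ℝ} (hx : D.tr n x = x) {c : ℝ} (hc : 0 ≤ c)
    (h : ∀ r : T, D.rank r < n → |pr (D.E r) x| ≤ c) (τ : T) : |pr (D.E τ) x| ≤ 2 * c := by
  obtain ⟨a, h1, h2, h3⟩ := D.E_bound τ n
  have e : pr (D.E τ) x = ∑ r ∈ a.support, a r * pr (D.E r) x := by
    conv_lhs => rw [← hx]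
    rw [← pr_tr, h3, pr_sum_left]
    exact Finset.sum_congr rfl fun r _ => pr_smul_left _ _ _
  rw [e]
  calc |∑ r ∈ a.support, a r * pr (D.E r) x| ≤ ∑ r ∈ a.support, |a r * pr (D.E r) x| :=
        Finset.abs_sum_le_sum_abs _ _
    _ ≤ ∑ r ∈ a.support, |a r| * c := by
        refine Finset.sum_le_sum fun r hr => ?_
        rw [abs_mul]
        exact mul_le_mul_of_nonneg_left (h r (h2 r hr)) (abs_nonneg _)
    _ = (∑ r ∈ a.support, |a r|) * c := (Finset.sum_mul _ _ _).symm
    _ ≤ 2 * c := mul_le_mul_of_nonneg_right h1 hc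

end TreeData

end Pool.Agent.MP8c9cbf
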