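import Pool.Agent.Lib.MP_8c9cbf_an.S.SA

/-! Row S3: triangular systems, finitely supported data (model: `MP_0d518c_an/SA5`). -/

namespace Pool.Agent.MP8c9cbf

open Finset Filter Topology

variable {T : Type} (D : TreeData T)

namespace TreeData

/-- the coordinates of rank `< n` of a finitely supported vector: finitely many are nonzero (the
top nodes of rank `< n` are finitely many by `fin`, for a base node `E τ = single τ 1`) -/
theorem finite_coord (n : ℕ) (x : T →₀ ℝ) : {τ : T | D.rank τ < n ∧ pr (D.E τ) x ≠ 0}.Finite := by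
  refine ((D.fin n).union x.support.finite_toSet).subset ?_
  rintro τ ⟨h1, h2⟩
  by_cases h : D.wt τ = none
  · right
    rw [D.E_base τ h, pr_single_left, one_mul] at h2
    exact Finset.mem_coe.2 (Finsupp.mem_support_iff.2 h2)
  · exact Or.inl ⟨le_of_lt h1, h⟩

theorem S3_tr_single {n : ℕ} {τ : T} (h : D.rank τ < n) (c : ℝ) :
    D.tr n (Finsupp.single τ c) = Finsupp.single τ c := by
  ext r
  rw [tr_apply]
  split_ifs with h1
  · rfl
  · have h2 : r ≠ τ := fun h3 => h1 (h3 ▸ h)
    exact (Finsupp.single_eq_of_ne h2).symm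

theorem S3_zero {τ r : T} (h : D.rank τ ≤ D.rank r) (hne : τ ≠ r) : D.E τ r = 0 := by
  by_contra h2
  rcases D.E_supp h2 with h3 | h3
  · omega
  · exact hne h3.symm

/-- prescribed coordinates of rank `< n`, finitely many nonzero; induction on `n`: given `x` for
`n`, add `Σ (u τ - pr (E τ) x) single τ` over the (finitely many) `τ` of rank `n` for which this is
not zero -/
theorem E_ext (n : ℕ) (u : T → ℝ) (hu : {τ : T | D.rank τ < n ∧ u τ ≠ 0}.Finite) :
    ∃ x : T →₀ ℝ, D.tr n x = x ∧ ∀ τ : T, D.rank τ < n → pr (D.E τ) x = u τ := by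
  classical
  induction n with
  | zero => exact ⟨0, map_zero _, fun q hq => absurd hq (Nat.not_lt_zero _)⟩
  | succ n ih =>
    obtain ⟨x, hx, hxu⟩ := ih (hu.subset fun τ hτ => ⟨Nat.lt_succ_of_lt hτ.1, hτ.2⟩)
    have hfin : {τ : T | D.rank τ = n ∧ u τ - pr (D.E τ) x ≠ 0}.Finite := by
      refine (hu.union (D.finite_coord (n + 1) x)).subset ?_
      rintro τ ⟨h1, h2⟩
      by_cases h3 : u τ = 0
      · right
        refine ⟨by omega, fun h4 => h2 ?_⟩
        rw [h3, h4, sub_zero]
      · exact Or.inl ⟨by omega, h3⟩
    let F : Finset T := hfin.toFinset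
    have hF : ∀ q, q ∈ F ↔ D.rank q = n ∧ u q - pr (D.E q) x ≠ 0 := fun q => hfin.mem_toFinset
    refine ⟨x + ∑ q ∈ F, Finsupp.single q (u q - pr (D.E q) x), ?_, ?_⟩
    · rw [map_add, map_sum]
      congr 1
      · conv_lhs => rw [← hx]
        rw [tr_tr, min_eq_right (Nat.le_succ n), hx]
      · refine Finset.sum_congr rfl fun q hq => ?_
        have := ((hF q).1 hq).1
        exact D.S3_tr_single (by omega) _
    · intro q hq
      rw [pr_add_right, pr_sum_right]
      simp only [pr_single_right]
      rcases Nat.lt_succ_iff_lt_or_eq.1 hq with h | h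
      · rw [hxu q h, Finset.sum_eq_zero, add_zero]
        intro r hr
        have h4 := ((hF r).1 hr).1
        rw [D.S3_zero (by omega) (by rintro rfl; omega), zero_mul]
      · by_cases hqF : q ∈ F
        · rw [Finset.sum_eq_single q, D.E_self, one_mul]
          · ring
          · intro r hr hrq
            have h4 := ((hF r).1 hr).1
            rw [D.S3_zero (by omega) hrq.symm, zero_mul]
          · intro h2
            exact absurd hqF h2
        · have h5 : u q - pr (D.E q) x = 0 := by
            by_contra h6
            exact hqF ((hF q).2 ⟨h, h6⟩)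
          rw [Finset.sum_eq_zero, add_zero]
          · linarith
          · intro r hr
            have h4 := ((hF r).1 hr).1
            rw [D.S3_zero (by omega) (by rintro rfl; exact hqF hr), zero_mul]

end TreeData

end Pool.Agent.MP8c9cbf
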