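import Pool.Agent.Lib.MP_8c9cbf_an.S.SB
import Pool.Agent.Lib.MP_8c9cbf_an.S.SC

/-! Row S4: the embedding into `ℓ_∞(T)` and the projections (model: `MP_0d518c_an/SB1`). -/

namespace Pool.Agent.MP8c9cbf

open Finset Filter Topology

/-- `ℓ_∞(T)` -/
abbrev LiT (T : Type) := lp (fun _ : T => ℝ) ⊤

variable {T : Type} (D : TreeData T)

namespace TreeData

theorem S4_bdd (x : T →₀ ℝ) : ∃ C, 0 ≤ C ∧ ∀ τ, |pr (D.E τ) x| ≤ C := by
  obtain ⟨n, hn⟩ := exists_tr D x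
  let F : Finset T := (D.finite_coord n x).toFinset
  have hF : ∀ τ, τ ∈ F ↔ D.rank τ < n ∧ pr (D.E τ) x ≠ 0 := fun τ =>
    (D.finite_coord n x).mem_toFinset
  have hc : 0 ≤ ∑ q ∈ F, |pr (D.E q) x| := Finset.sum_nonneg fun _ _ => abs_nonneg _
  refine ⟨2 * ∑ q ∈ F, |pr (D.E q) x|, by positivity, fun q => ?_⟩
  apply D.abs_pr_E_le (hn n le_rfl) hc
  intro r h1
  by_cases h2 : pr (D.E r) x = 0
  · rw [h2, abs_zero]
    exact hc
  · exact Finset.single_le_sum (f := fun q => |pr (D.E q) x|) (fun _ _ => abs_nonneg _)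
      ((hF r).2 ⟨h1, h2⟩)

theorem exists_Phi : ∃ Φ : (T →₀ ℝ) →ₗ[ℝ] LiT T, ∀ x τ, Φ x τ = pr (D.E τ) x := by
  have hmem : ∀ x : T →₀ ℝ, Memℓp (fun q : T => pr (D.E q) x) ⊤ := by
    intro x
    obtain ⟨C, _, hC⟩ := D.S4_bdd x
    apply memℓp_infty
    refine ⟨C, ?_⟩
    rintro _ ⟨q, rfl⟩
    exact hC q
  refine ⟨{ toFun := fun x => ⟨fun q => pr (D.E q) x, hmem x⟩
            map_add' := ?_
            map_smul' := ?_ }, fun x q => rfl⟩
  · intro x y
    apply lp.ext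
    funext q
    exact pr_add_right _ _ _
  · intro c x
    apply lp.ext
    funext q
    exact pr_smul_right _ _ _

/-- `(Qi y)_τ = Σ_r a_r y_r` with `a = a(τ, n)` from `E_bound`; so `Qi (Φ x) = Φ (tr n x)`
(`pr_tr`) -/
theorem exists_Qinf {Φ : (T →₀ ℝ) →ₗ[ℝ] LiT T} (hΦ : ∀ x τ, Φ x τ = pr (D.E τ) x) (n : ℕ) :
    ∃ Qi : LiT T →L[ℝ] LiT T, (∀ y, ‖Qi y‖ ≤ 2 * ‖y‖) ∧ (∀ x, Qi (Φ x) = Φ (D.tr n x)) ∧
      ∀ y : LiT T, (∀ τ : T, D.rank τ < n → y τ = 0) → Qi y = 0 := by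
  classical
  choose a ha1 ha2 ha3 using fun τ => D.E_bound τ n
  have hb : ∀ (y : LiT T) (τ : T), |∑ r ∈ (a τ).support, a τ r * y r| ≤ 2 * ‖y‖ := by
    intro y τ
    calc |∑ r ∈ (a τ).support, a τ r * y r| ≤ ∑ r ∈ (a τ).support, |a τ r * y r| :=
          Finset.abs_sum_le_sum_abs _ _
      _ ≤ ∑ r ∈ (a τ).support, |a τ r| * ‖y‖ := by
          refine Finset.sum_le_sum fun r _ => ?_
          rw [abs_mul]
          exact mul_le_mul_of_nonneg_left (lp.norm_apply_le_norm ENNReal.top_ne_zero y r)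
            (abs_nonneg _)
      _ = (∑ r ∈ (a τ).support, |a τ r|) * ‖y‖ := by rw [Finset.sum_mul]
      _ ≤ 2 * ‖y‖ := mul_le_mul_of_nonneg_right (ha1 τ) (norm_nonneg _)
  have hmem : ∀ y : LiT T, Memℓp (fun τ : T => ∑ r ∈ (a τ).support, a τ r * y r) ⊤ := by
    intro y
    apply memℓp_infty
    refine ⟨2 * ‖y‖, ?_⟩
    rintro _ ⟨q, rfl⟩
    exact hb y q
  let L : LiT T →ₗ[ℝ] LiT T :=
    { toFun := fun y => ⟨fun τ => ∑ r ∈ (a τ).support, a τ r * y r, hmem y⟩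
      map_add' := by
        intro y z
        apply lp.ext
        funext τ
        show ∑ r ∈ (a τ).support, a τ r * (y r + z r) =
          ∑ r ∈ (a τ).support, a τ r * y r + ∑ r ∈ (a τ).support, a τ r * z r
        rw [← Finset.sum_add_distrib]
        exact Finset.sum_congr rfl fun r _ => mul_add _ _ _
      map_smul' := by
        intro c y
        apply lp.ext
        funext τ
        show ∑ r ∈ (a τ).support, a τ r * (c * y r) = c * ∑ r ∈ (a τ).support, a τ r * y r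
        rw [Finset.mul_sum]
        exact Finset.sum_congr rfl fun r _ => by ring }
  have hL : ∀ y τ, L y τ = ∑ r ∈ (a τ).support, a τ r * y r := fun y τ => rfl
  have hLb : ∀ y, ‖L y‖ ≤ 2 * ‖y‖ := fun y =>
    lp.norm_le_of_forall_le (by positivity) fun τ => hb y τ
  refine ⟨L.mkContinuous 2 hLb, hLb, ?_, ?_⟩
  · intro x
    apply lp.ext
    funext τ
    show L (Φ x) τ = Φ (D.tr n x) τ
    rw [hL, hΦ, ← pr_tr, ha3 τ, pr_sum_left]
    exact Finset.sum_congr rfl fun r _ => by rw [hΦ, pr_smul_left]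
  · intro y hy
    apply lp.ext
    funext τ
    show L y τ = 0
    rw [hL]
    exact Finset.sum_eq_zero fun r hr => by rw [hy r (ha2 τ r hr), mul_zero]

end TreeData

end Pool.Agent.MP8c9cbf
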