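import Pool.Agent.Lib.MP_8c9cbf_an.Defs

/-! Part S (construction of the space from the tree): definitions.  A functional is written in the
basis `d*_τ`, a vector in the basis `d_τ`, `τ ∈ T`; the coordinates `(τ, k)` with `k > 0` of the
interface are zero, so only the terms `bb τ (η, 0)` count.  (Model: `Lib/MP_0d518c_an/SpDefs`,
`SA1` - `SA5`, `SB1`, `SpB`, which treat `T × ℕ` with the shift; here there is no shift, and the
ranks are infinite.) -/

namespace Pool.Agent.MP8c9cbf

open Finset Filter Topology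

variable {T : Type}

namespace TreeData

/-- truncation to ranks `< n` -/
noncomputable def tr (D : TreeData T) (n : ℕ) : (T →₀ ℝ) →ₗ[ℝ] (T →₀ ℝ) :=
  Finsupp.linearCombination ℝ (fun τ : T =>
    if D.rank τ < n then Finsupp.single τ (1 : ℝ) else 0)

/-- the functional `Σ_q b_q e*_q` computed from the functionals `F ξ = e*_ξ`; `e*_(ξ,k) = 0` for
`k > 0` -/
noncomputable def Bst (F : T → (T →₀ ℝ)) (b : T × ℕ →₀ ℝ) : T →₀ ℝ :=
  ∑ q ∈ b.support, b q • (if q.2 = 0 then F q.1 else 0)

/-- one step of the recursion for `e*_τ` -/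
noncomputable def Estep (D : TreeData T) (F : T → (T →₀ ℝ)) (τ : T) : T →₀ ℝ :=
  Finsupp.single τ 1 + ((D.prv τ).elim 0 F) +
    ((D.wt τ).elim 0 fun i => (mm i : ℝ)⁻¹ • (Bst F (D.bb τ) - D.tr (D.lev τ) (Bst F (D.bb τ))))

/-- approximations of `e*_τ` (recursion with fuel) -/
noncomputable def Eup (D : TreeData T) : ℕ → T → (T →₀ ℝ)
  | 0, _ => 0
  | (m + 1), τ => D.Estep (D.Eup m) τ

/-- `e*_τ` in the basis `d*` -/
noncomputable def E (D : TreeData T) (τ : T) : T →₀ ℝ := D.Eup (D.rank τ + 1) τ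

/-- pairing of a functional (basis `d*`) and a vector (basis `d`) -/
noncomputable def pr (f x : T →₀ ℝ) : ℝ := ∑ τ ∈ f.support, f τ * x τ

end TreeData

end Pool.Agent.MP8c9cbf
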